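import Pool.Agent.K7.H10.CE.Sup

/-!
# The critical exponent of Q1; forms over the prime field; infinitely many degrees

For a finite scheme `Γ = Spec A` of degree `d` over an algebraically closed field `k` let `rate k A`
be the limit of the `n`-th roots of `d^n + δ(Γ^n)`; Q1 holds for `Γ` if and only if `rate k A = d`.
The critical exponent `crit k` is the supremum of `log (rate Γ) / log (deg Γ)` over all `Γ` of degree
at least two.

1. `crit k` depends only on the characteristic of `k`.
2. `1 ≤ crit k`, with equality if and only if Q1 holds for all finite schemes over `k`; and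
   `log (maxRate k d) / log d` tends to `crit k`, where `maxRate k d` is the largest growth rate of
   the local schemes of degree `d`.
3. If `crit k < 1 + ε` then the ratio of Q1 for `ε` tends to `0` for all finite schemes. If
   `1 + ε < crit k` then for all large `d` there is a local scheme of degree `d` for which it tends
   to infinity.
4. It is enough to know Q1 in infinitely many degrees: if for every `ε > 0` there are infinitely many
   `d` such that the ratio does not tend to infinity for any local scheme of degree `d` over `k`,
   then Q1 holds for all finite schemes over all algebraically closed fields of the same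
   characteristic.
5. Let `F` be any subfield of `K` (for example the prime field). Then `crit K` is the supremum of the
   exponents of the apolar schemes (over `K`) of the forms with coefficients in `F`, and Q1 for all
   finite schemes over `K` is equivalent to Q1 for these apolar schemes. If `1 + ε < crit K` then the
   ratio for `ε` tends to infinity for one of them.

For 5 let `A` be a local algebra of dimension `d` over the algebraic closure of `F`, with structure
constants in an extension `L` of `F` of degree `m`. The elements of the `n`-th power of `A` with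
coordinates in `L` and residue class in `F` form a local `F`-algebra of dimension at most `m d^n`,
which is a quotient of the apolar algebra of a form over `F` whose dimension is at most `m d^n` times
a polynomial in `n`.
-/

set_option autoImplicit false

namespace Pool.Agent.Results.MP_44217d_ag.CriticalExponent

open Pool.Agent.H826R3.SM Pool.Agent.TH671.DU Pool.Agent.N86.SQ Pool.Agent.K7.H10.GR
open Pool.Agent.K7.H10.CE
open scoped TensorProduct Topology
open Filter

theorem result :
    (∀ (p : ℕ) (k K : Type) [Field k] [IsAlgClosed k] [CharP k p] [Field K] [IsAlgClosed K]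
      [CharP K p], crit k = crit K) ∧
    (∀ (k : Type) [Field k] [IsAlgClosed k],
      1 ≤ crit k ∧ (QAll k ↔ crit k = 1) ∧
      Tendsto (fun d : ℕ => ((Real.log (maxRate k d) / Real.log d : ℝ) : EReal)) atTop
        (𝓝 (crit k)) ∧
      (∀ d : ℕ, 1 ≤ d → ∀ x : ℝ, maxRate k d ≤ x ↔ RateLe k d x)) ∧
    (∀ (k : Type) [Field k] [IsAlgClosed k] (ε : ℝ),
      (crit k < ((1 + ε : ℝ) : EReal) → ∀ (A : Type) [CommRing A] [Algebra k A] [Module.Finite k A]
        [Nontrivial A], Tendsto (ratio k A ε) atTop (𝓝 0)) ∧
      (0 ≤ ε → ((1 + ε : ℝ) : EReal) < crit k → ∀ᶠ d : ℕ in atTop,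
        ∃ (A : Type) (_ : CommRing A) (_ : Algebra k A), Module.Finite k A ∧ IsLocalRing A ∧
          Module.finrank k A = d ∧ Tendsto (ratio k A ε) atTop atTop)) ∧
    (∀ (p : ℕ) (k K : Type) [Field k] [IsAlgClosed k] [CharP k p] [Field K] [IsAlgClosed K]
      [CharP K p], (∀ ε : ℝ, 0 < ε → ∃ᶠ d : ℕ in atTop, ∀ (A : Type) [CommRing A] [Algebra k A]
        [Module.Finite k A] [IsLocalRing A], Module.finrank k A = d →
          ¬ Tendsto (ratio k A ε) atTop atTop) → QAll K) ∧
    (∀ (F K : Type) [Field F] [Field K] [IsAlgClosed K] [Algebra F K],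
      crit K = critForms F K ∧
      (QAll K ↔ ∀ (σ : Type) [Finite σ] (s : ℕ) (Φ : MvPolynomial σ F →ₗ[F] F),
        IsDualForm s Φ → Φ ≠ 0 → QOne K (K ⊗[F] ApolarAlg Φ)) ∧
      (∀ ε : ℝ, 0 ≤ ε → ((1 + ε : ℝ) : EReal) < crit K →
        ∃ (σ : Type) (_ : Finite σ) (s : ℕ) (Φ : MvPolynomial σ F →ₗ[F] F),
          IsDualForm s Φ ∧ Φ ≠ 0 ∧ Tendsto (ratio K (K ⊗[F] ApolarAlg Φ) ε) atTop atTop)) := by
  refine ⟨?_, ?_, ?_, ?_, ?_⟩
  · intro p k K _ _ _ _ _ _
    exact crit_char p K
  · intro k _ _
    exact ⟨one_le_crit, qAll_iff_crit, tendsto_crit, fun d hd x => (maxRate_spec hd x).symm⟩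
  · intro k _ _ ε
    exact ⟨fun h A _ _ _ _ => above h A, fun hε h => below hε h⟩
  · intro p k K _ _ _ _ _ _ h
    exact qAll_iff_crit.2 ((crit_char (k := K) p k).trans (infinitely_many h))
  · intro F K _ _ _ _
    exact ⟨crit_eq_forms, qAll_iff_forms, fun ε hε h => below_forms hε h⟩

end Pool.Agent.Results.MP_44217d_ag.CriticalExponent
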