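import Pool.Agent.K7.H1.SD.Thms

/-!
# MP_44217d_ag: products of different schemes

For a tensor `T ∈ (K^v)^{⊗ 3}` let `Γ_T = Spec (ApolarAlg (mform T))` be the apolar scheme of the
trilinear form of `T`. If the entries of `T` are algebraically independent then `Γ_T` has degree
`d = 6 v + 2`. For a sequence `T_0, T_1, …` with algebraically independent entries, every finite
smoothable scheme which contains a product of `n` of the schemes `Γ_{T_i}` has degree at least
`v ^ (2 n) / binom (3 n) n ≥ (4 v² / 27) ^ n`, and one of degree at most `(8 v²) ^ n` exists. Hence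
the analogue of Q1 for products of different schemes of the same degree `d` fails for every
`ε < 1` and all large `v`.
-/

set_option autoImplicit false

namespace Pool.Agent.Results.MP_44217d_ag.MixedProducts

open Pool.Agent.H826R3.SM Pool.Agent.TH671.SD Pool.Agent.K7.H1.SD Filter Topology

/-- Notation: `dgT T` is the degree of `Γ_T`, `pdef T` the smoothability defect of the product of
the schemes `Γ_{T s}`, `s < n`, and `ratP T ε n` the quotient of the smoothability defect and the
`(1 + ε)`-th power of the degree of `Γ_{T 0} × ⋯ × Γ_{T (n - 1)}`. -/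
theorem result :
    (∀ v : ℕ, ∃ T : ℕ → (Fin 3 → Fin v) → ℂ, IndepSeq T) ∧
    (∀ (K : Type) [Field K] [CharZero K] (v : ℕ) (T : ℕ → (Fin 3 → Fin v) → K), 1 ≤ v →
      IndepSeq T → (∀ i, dgT (T i) = 6 * v + 2) ∧
      ∀ (n : ℕ) (σ : Fin n → ℕ), Function.Injective σ →
        v ^ (2 * n) ≤ (3 * n).choose n * ((6 * v + 2) ^ n + pdef fun s => T (σ s)) ∧
        ((6 * v + 2) ^ n + pdef fun s => T (σ s)) ≤ (8 * v ^ 2) ^ n) ∧
    (∀ ε : ℝ, 0 < ε → ε < 1 → ∀ᶠ v : ℕ in atTop,
      ∀ (K : Type) [Field K] [CharZero K] (T : ℕ → (Fin 3 → Fin v) → K), IndepSeq T →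
      Tendsto (ratP T ε) atTop atTop) := by
  refine ⟨fun v => ?_, fun K _ _ v T hv hT => ⟨fun i => finrank_of_indep hv (hT.apply i),
    fun n σ hσ => ⟨mixed_lower hv hT σ hσ,
      (pdef_spec (fun s => T (σ s)) fun s => finrank_of_indep hv (hT.apply _)).2⟩⟩,
    fun ε hε hε1 => ?_⟩
  · obtain ⟨x, hx⟩ := exists_indep_complex
    let e := Encodable.encode' (ℕ × (Fin 3 → Fin v))
    exact ⟨fun i a => x (e (i, a)), hx.comp (fun p => e p) e.injective⟩
  · filter_upwards [eventually_le ε (27 / 2) hε1, eventually_ge_atTop 1] with v hv hv1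
    intro K _ _ T hT
    refine tendsto_atTop_mono (f := fun n : ℕ => (2 : ℝ) ^ n - 1) (fun n => ?_)
      (tendsto_atTop_add_const_right _ _ (tendsto_pow_atTop_atTop_of_one_lt (by norm_num)))
    have hdeg : ((∏ s : Fin n, dgT (T s) : ℕ) : ℝ) ^ (1 + ε) =
        ((6 * v + 2 : ℕ) : ℝ) ^ ((1 + ε) * (n : ℝ)) := by
      have h0 : ∀ s : Fin n, dgT (T s) = 6 * v + 2 := fun s => finrank_of_indep hv1 (hT.apply s)
      simp only [h0]
      rw [Finset.prod_const, Finset.card_univ, Fintype.card_fin,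
        Nat.cast_pow, ← Real.rpow_natCast, ← Real.rpow_mul (Nat.cast_nonneg _), mul_comm (1 + ε)]
    unfold ratP
    rw [hdeg]
    refine ratio_lower (by omega) hε.le ?_
    have h1 := mixed_lower' hv1 hT (fun s : Fin n => (s : ℕ)) Fin.val_injective
    have h2 : ((4 * v ^ 2 : ℝ)) ^ n ≤ 27 ^ n * (((6 * v + 2 : ℕ) : ℝ) ^ n +
        (pdef fun s : Fin n => T s : ℕ)) := by exact_mod_cast h1
    have h3 : (2 * ((6 * v + 2 : ℕ) : ℝ) ^ (1 + ε)) ^ n ≤ ((4 * v ^ 2 : ℝ) / 27) ^ n := by
      refine pow_le_pow_left₀ (by positivity) ?_ n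
      linarith
    refine h3.trans ?_
    rw [div_pow, div_le_iff₀ (by positivity), mul_comm _ ((27 : ℝ) ^ n)]
    exact h2

end Pool.Agent.Results.MP_44217d_ag.MixedProducts
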