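import Pool.Agent.K7.H1.SD.Thms

/-!
# MP_44217d_ag: small powers of generic schemes

For a tensor `T ∈ (K^v)^{⊗ 3}` let `Γ_T = Spec (ApolarAlg (mform T))` be the apolar scheme of the
trilinear form of `T`. If the entries of `T` are algebraically independent then `Γ_T` has degree
`d = 6 v + 2`, and every finite smoothable scheme which contains `Γ_T^{×n}` has degree at least
`binom (v³) n / (binom (3 n) n * v ^ n) ≥ (4 v² / (27 n)) ^ n`. Hence `δ (Γ_T^{×n})` is at least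
`2 ^ n * d ^ ((1 + ε) n)` as long as `1296 n ≤ d ^ (1 - ε)`: the convergence of Q1 is not uniform in
`Γ` for any `ε < 1`.
-/

set_option autoImplicit false

namespace Pool.Agent.Results.MP_44217d_ag.SmallPowers

open Pool.Agent.H826R3.SM Pool.Agent.TH671.SD Pool.Agent.K7.H1.SD Filter Topology

/-- Notation: `dgT T` is the degree of `Γ_T`, `dlT T n` the smoothability defect of `Γ_T^{×n}`,
`ratT T ε n = dlT T n / (dgT T) ^ ((1 + ε) n)`. -/
theorem result :
    (∀ v : ℕ, ∃ T : (Fin 3 → Fin v) → ℂ, AlgebraicIndependent ℚ T) ∧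
    (∀ (K : Type) [Field K] [CharZero K] (v : ℕ) (T : (Fin 3 → Fin v) → K), 1 ≤ v →
      AlgebraicIndependent ℚ T →
      dgT T = 6 * v + 2 ∧
      (∀ n : ℕ, (v ^ 3).choose n ≤ (3 * n).choose n * v ^ n * (dgT T ^ n + dlT T n) ∧
        (4 * v ^ 2) ^ n ≤ (27 * n) ^ n * (dgT T ^ n + dlT T n) ∧
        dgT T ^ n + dlT T n ≤ (8 * v ^ 2) ^ n) ∧
      (∀ (ε : ℝ) (n : ℕ), 0 < ε → 1 ≤ n → 1296 * (n : ℝ) ≤ (dgT T : ℝ) ^ (1 - ε) →
        2 ^ n ≤ ratT T ε n)) ∧
    (∀ (ε : ℝ) (n : ℕ) (M : ℝ), 0 < ε → ε < 1 → 1 ≤ n → ∀ᶠ v : ℕ in atTop,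
      ∀ (K : Type) [Field K] [CharZero K] (T : (Fin 3 → Fin v) → K),
      AlgebraicIndependent ℚ T → M ≤ ratT T ε n) := by
  have key : ∀ (K : Type) [Field K] [CharZero K] (v : ℕ) (T : (Fin 3 → Fin v) → K), 1 ≤ v →
      AlgebraicIndependent ℚ T → ∀ (ε x : ℝ) (n : ℕ), 0 < ε → 0 ≤ x → 1 ≤ n →
      27 * n * (x * ((6 * v + 2 : ℕ) : ℝ) ^ (1 + ε)) ≤ 4 * (v : ℝ) ^ 2 →
      x ^ n - 1 ≤ ratT T ε n := by
    intro K _ _ v T hv hT ε x n hε hx hn h
    have hdg : dgT T = 6 * v + 2 := finrank_of_indep hv hT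
    unfold ratT
    rw [hdg]
    refine ratio_lower (by omega) hε.le ?_
    have h1 := power_lower' (n := n) hv hT
    have h2 : ((4 * v ^ 2 : ℝ)) ^ n ≤ (27 * n) ^ n * (((6 * v + 2 : ℕ) : ℝ) ^ n + (dlT T n : ℝ)) := by
      exact_mod_cast h1
    have hn' : (0 : ℝ) < 27 * n := by positivity
    have h3 : (x * ((6 * v + 2 : ℕ) : ℝ) ^ (1 + ε)) ^ n ≤ ((4 * v ^ 2 : ℝ) / (27 * n)) ^ n := by
      refine pow_le_pow_left₀ (by positivity) ?_ n
      rw [le_div_iff₀ hn']
      linarith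
    refine h3.trans ?_
    rw [div_pow, div_le_iff₀ (by positivity), mul_comm _ (((27 : ℝ) * n) ^ n)]
    exact h2
  refine ⟨fun v => ?_, fun K _ _ v T hv hT => ?_, fun ε n M hε hε1 hn => ?_⟩
  · obtain ⟨x, hx⟩ := exists_indep_complex
    let e := Encodable.encode' (Fin 3 → Fin v)
    exact ⟨fun a => x (e a), hx.comp (fun p => e p) e.injective⟩
  · have hdg : dgT T = 6 * v + 2 := finrank_of_indep hv hT
    refine ⟨hdg, fun n => ?_, fun ε n hε hn h => ?_⟩
    · rw [hdg]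
      exact ⟨power_lower hv hT, power_lower' hv hT,
        (pdef_spec (n := n) (fun _ => T) fun s => finrank_of_indep hv hT).2⟩
    · rw [hdg] at h
      have hd8 : ((6 * v + 2 : ℕ) : ℝ) ≤ 8 * v := by
        have : (1 : ℝ) ≤ v := by exact_mod_cast hv
        push_cast
        linarith
      have hd0 : (0 : ℝ) < ((6 * v + 2 : ℕ) : ℝ) := by
        have : 0 < 6 * v + 2 := by omega
        exact_mod_cast this
      have h1 := key K v T hv hT ε 3 n hε (by norm_num) hn (by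
        have h2 : ((6 * v + 2 : ℕ) : ℝ) ^ (1 - ε) * ((6 * v + 2 : ℕ) : ℝ) ^ (1 + ε) =
            ((6 * v + 2 : ℕ) : ℝ) ^ 2 := by
          rw [← Real.rpow_add hd0, show (1 - ε) + (1 + ε) = 2 by ring, Real.rpow_two]
        have h3 : 1296 * (n : ℝ) * ((6 * v + 2 : ℕ) : ℝ) ^ (1 + ε) ≤ ((6 * v + 2 : ℕ) : ℝ) ^ 2 := by
          rw [← h2]
          exact mul_le_mul_of_nonneg_right h (by positivity)
        have h4 : ((6 * v + 2 : ℕ) : ℝ) ^ 2 ≤ 64 * (v : ℝ) ^ 2 := by
          calc ((6 * v + 2 : ℕ) : ℝ) ^ 2 ≤ (8 * (v : ℝ)) ^ 2 :=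
                pow_le_pow_left₀ hd0.le hd8 2
            _ = _ := by ring
        nlinarith [h3, h4])
      refine le_trans ?_ h1
      have h5 : (2 : ℝ) ^ n + 1 ≤ 3 ^ n := by
        have h6 : ∀ m : ℕ, (2 : ℝ) ^ (m + 1) + 1 ≤ 3 ^ (m + 1) := by
          intro m
          induction m with
          | zero => norm_num
          | succ m ih =>
            have h7 : (0 : ℝ) < 2 ^ (m + 1) := by positivity
            rw [pow_succ, pow_succ 3]
            linarith
        obtain ⟨m, rfl⟩ : ∃ m, n = m + 1 := ⟨n - 1, by omega⟩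
        exact h6 m
      linarith
  · have hn0 : (0 : ℝ) < n := by exact_mod_cast hn
    filter_upwards [eventually_le ε (27 * n * (|M| + 2) / 4) hε1, eventually_ge_atTop 1]
      with v hv hv1
    intro K _ _ T hT
    have h1 := key K v T hv1 hT ε (|M| + 2) n hε (by positivity) hn (by linarith)
    refine le_trans ?_ h1
    have h2 : (|M| + 2) ≤ (|M| + 2) ^ n :=
      le_self_pow₀ (by have := abs_nonneg M; linarith) (by omega)
    have := le_abs_self M
    linarith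

end Pool.Agent.Results.MP_44217d_ag.SmallPowers
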