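import Pool.Agent.K7.H10.GR.Fin

/-!
# Growth rates: independence of the ground field and uniformity

The growth rate `rate k A` of a finite scheme `Γ = Spec A` of degree `d` over an algebraically closed
field `k` is the limit of the `n`-th roots of `d^n + δ(Γ^n)`; Q1 holds for `Γ` if and only if it is
equal to `d`.

1. For local `Γ` the growth rate does not change under extensions of algebraically closed fields, and
   the same holds for Q1.
2. The set of the growth rates of all local schemes of degree `d` over all algebraically closed fields
   of characteristic `p` is well-ordered, and it has a largest element `M`. Over each algebraically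
   closed field of characteristic `p` the supremum of the growth rates of the local schemes of
   degree `d` is `M`.
3. Q1 holds over one algebraically closed field of characteristic `p` if and only if it holds over all
   of them.
4. The convergence to the growth rate is uniform for fixed `p` and `d`: for `η > 0` there is an `N`
   with `d^n + δ(Γ^n) ≤ (rate Γ + η)^n` for all `n ≥ N`, all algebraically closed fields of
   characteristic `p` and all local `Γ` of degree `d`.
5. One power decides Q1: there are `N` and `ε > 0`, which depend only on `p` and `d`, such that Q1 holds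
   for a local `Γ` of degree `d` over an algebraically closed field of characteristic `p` if and
   only if `d^N + δ(Γ^N) < (d + ε)^N`.
6. If the growth rates of the local schemes of degree `d` over a field of characteristic `0` are at most
   `x`, then for every `η > 0` those of the local schemes of degree `d` over fields of characteristic
   `p` are at most `x + η` for all sufficiently large `p`.
7. Let `A₀` be a commutative ring with a `ℤ`-basis of `1` and nilpotent elements. For every `η > 0` the
   growth rate of the reduction of `A₀` modulo `p` is at most that of `A₀` in characteristic `0` plus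
   `η`, for all sufficiently large `p`.

Outline of the proof. Certificates: if the forms of degree at most `m` which vanish in the points
`p 1, ..., p W` vanish on `Γ^n`, then `d^n + δ(Γ^n) ≤ W (m + 2)`, and the least such `W` for the standard
generators has the same growth rate. Such points are given by a system of polynomial equations in
the structure constants. It descends by the Nullstellensatz and passes from ultraproducts to almost all
factors. In the other direction we use that the growth rate of an ultraproduct, whose structure constants
lie in the closure of those of the factors, is at most the limit of those of the factors, by the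
closure theorem of `MP_44217d_ag.WellOrderedRates` over the large field.
-/

set_option autoImplicit false

namespace Pool.Agent.Results.MP_44217d_ag.UniformRates

open Pool.Agent.H826R3.SM Pool.Agent.TH671.DU Pool.Agent.N86.SQ Pool.Agent.K7.H10.GR
open scoped TensorProduct

theorem result :
    (∀ (k K A : Type) [Field k] [IsAlgClosed k] [Field K] [IsAlgClosed K] [Algebra k K]
      [CommRing A] [Algebra k A] [Module.Finite k A] [IsLocalRing A],
      rate K (K ⊗[k] A) = rate k A ∧ (QOne K (K ⊗[k] A) ↔ QOne k A)) ∧
    (∀ p d : ℕ, (allRates p d).IsWF ∧
      ((∃ (k : Type) (_ : Field k), CharP k p) → 1 ≤ d → ∃ M ∈ allRates p d,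
        ∀ (k : Type) [Field k] [IsAlgClosed k] [CharP k p] (x : ℝ), RateLe k d x ↔ M ≤ x)) ∧
    (∀ (p : ℕ) (k K : Type) [Field k] [IsAlgClosed k] [CharP k p] [Field K] [IsAlgClosed K]
      [CharP K p], QAll k ↔ QAll K) ∧
    (∀ (p d : ℕ) (η : ℝ), 0 < η → ∃ N : ℕ, Uniform p d η N) ∧
    (∀ p d : ℕ, ∃ N : ℕ, 1 ≤ N ∧ ∃ ε : ℝ, 0 < ε ∧ OnePower p d N ε) ∧
    (∀ (K : Type) [Field K] [IsAlgClosed K] [CharZero K] (d : ℕ) (x : ℝ), RateLe K d x →
      ∀ η : ℝ, 0 < η → ∃ p₀ : ℕ, ∀ p, p₀ ≤ p → ∀ (k : Type) [Field k] [IsAlgClosed k]
        [CharP k p], RateLe k d (x + η)) ∧
    (∀ (A₀ : Type) [CommRing A₀] (l : ℕ) (c : Module.Basis (Fin (l + 1)) ℤ A₀), Ad c →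
      ∀ (K : Type) [Field K] [IsAlgClosed K] [CharZero K] (η : ℝ), 0 < η → ∃ p₀ : ℕ, ∀ p, p₀ ≤ p →
        ∀ (k : Type) [Field k] [IsAlgClosed k] [CharP k p],
          rate k (k ⊗[ℤ] A₀) ≤ rate K (K ⊗[ℤ] A₀) + η) := by
  refine ⟨?_, ?_, ?_, ?_, ?_, ?_, ?_⟩
  · intro k K A _ _ _ _ _ _ _ _ _
    exact ⟨rate_field k K A, qOne_field k K A⟩
  · intro p d
    exact ⟨allRates_isWF p d, fun hp hd => max_rate p d hp hd⟩
  · intro p k K _ _ _ _ _ _
    exact ⟨(char_transfer p k K).2, (char_transfer p K k).2⟩
  · intro p d η hη
    exact char_unif p d η hη
  · intro p d
    exact char_power p d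
  · intro K _ _ _ d x hx η hη
    exact large_char K d x hx η hη
  · intro A₀ _ l c hc K _ _ _ η hη
    exact red_rate c hc K η hη

end Pool.Agent.Results.MP_44217d_ag.UniformRates
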